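import Pool.Agent.H37.CTT.Stmts

set_option autoImplicit false

namespace Pool.CND

open Matrix

namespace SU1T

/-- the action -/
def act {F : Type} [Field F] (g : Sp4 F) (x : Fin 4 → F) : Fin 4 → F := g.1.1 *ᵥ x

theorem act_one {F : Type} [Field F] (x : Fin 4 → F) : act (1 : Sp4 F) x = x := by
  show (1 : Matrix (Fin 4) (Fin 4) F) *ᵥ x = x
  exact Matrix.one_mulVec x

theorem act_mul {F : Type} [Field F] (g h : Sp4 F) (x : Fin 4 → F) :
    act (g * h) x = act g (act h x) := by
  show (g.1.1 * h.1.1) *ᵥ x = g.1.1 *ᵥ (h.1.1 *ᵥ x)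
  rw [Matrix.mulVec_mulVec]

theorem act_add {F : Type} [Field F] (g : Sp4 F) (x y : Fin 4 → F) :
    act g (x + y) = act g x + act g y := Matrix.mulVec_add _ _ _

theorem act_sub {F : Type} [Field F] (g : Sp4 F) (x y : Fin 4 → F) :
    act g (x - y) = act g x - act g y := Matrix.mulVec_sub _ _ _

theorem act_smul {F : Type} [Field F] (g : Sp4 F) (a : F) (x : Fin 4 → F) :
    act g (a • x) = a • act g x := Matrix.mulVec_smul _ _ _

theorem act_inj {F : Type} [Field F] {g h : Sp4 F} (H : ∀ x, act g x = act h x) : g = h := by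
  apply Subtype.ext
  apply Subtype.ext
  apply Matrix.toLin'.injective
  apply LinearMap.ext
  intro x
  rw [Matrix.toLin'_apply, Matrix.toLin'_apply]
  exact H x

theorem frm_act {F : Type} [Field F] (g : Sp4 F) (x y : Fin 4 → F) :
    frm (act g x) (act g y) = frm x y := by
  have hg : g.1.1ᵀ * J4s F * g.1.1 = J4s F := g.2
  unfold frm act
  rw [Matrix.mulVec_mulVec, Matrix.dotProduct_mulVec, Matrix.vecMul_mulVec,
    ← Matrix.mul_assoc, hg, ← Matrix.dotProduct_mulVec]

/-- the form as a bilinear form -/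
noncomputable def BF (F : Type) [Field F] : LinearMap.BilinForm F (Fin 4 → F) :=
  Matrix.toBilin' (J4s F)

theorem BF_apply {F : Type} [Field F] (x y : Fin 4 → F) : BF F x y = frm x y := by
  unfold BF frm
  rw [Matrix.toBilin'_apply']

theorem frm_eq {F : Type} [Field F] (x y : Fin 4 → F) :
    frm x y = x 0 * y 3 + x 1 * y 2 - x 2 * y 1 - x 3 * y 0 := by
  simp [frm, J4s, Matrix.mulVec, dotProduct, Fin.sum_univ_four]
  ring

theorem frm_anti {F : Type} [Field F] (x y : Fin 4 → F) : frm x y = -frm y x := by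
  rw [frm_eq, frm_eq]; ring

theorem frm_self {F : Type} [Field F] (x : Fin 4 → F) : frm x x = 0 := by
  rw [frm_eq]; ring

theorem BF_nondeg (F : Type) [Field F] : (BF F).Nondegenerate := by
  apply LinearMap.BilinForm.nondegenerate_toBilin'_of_det_ne_zero'
  have : (J4s F).det = 1 := by
    have h32 : Fin.succAbove (3 : Fin 4) (2 : Fin 3) = 2 := rfl
    simp [J4s, Matrix.det_succ_row_zero, Fin.sum_univ_succ, h32]
    ring
  rw [this]
  exact one_ne_zero

theorem fin_orth {F : Type} [Field F] (S : Submodule F (Fin 4 → F)) :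
    Module.finrank F ((BF F).orthogonal S) = 4 - Module.finrank F S := by
  rw [LinearMap.BilinForm.finrank_orthogonal (BF_nondeg F), Module.finrank_fin_fun]

theorem mem_orth {F : Type} [Field F] (S : Submodule F (Fin 4 → F)) (x : Fin 4 → F) :
    x ∈ (BF F).orthogonal S ↔ ∀ y ∈ S, frm y x = 0 := by
  rw [LinearMap.BilinForm.mem_orthogonal_iff]
  constructor
  · intro h y hy
    have := h y hy
    rwa [BF_apply] at this
  · intro h y hy
    rw [BF_apply]
    exact h y hy

theorem dvd_card {F M : Type} [Field F] [AddCommGroup M] [Module F M] [Finite M] (p : ℕ)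
    [CharP F p] (hp : p.Prime) {x : M} (hx : x ≠ 0) : p ∣ Nat.card M := by
  haveI : Fact p.Prime := ⟨hp⟩
  have h : p • x = 0 := by
    rw [← Nat.cast_smul_eq_nsmul F, CharP.cast_eq_zero, zero_smul]
  have h2 : addOrderOf x = p := addOrderOf_eq_prime h hx
  rw [← h2]
  exact addOrderOf_dvd_natCard x

theorem exists_u {F : Type} [Field F] [Finite F] (p : ℕ) [CharP F p] (hp : p.Prime)
    (W : Subgroup (Sp4 F)) (hW : IsPGroup p W) :
    ∃ u : Fin 4 → F, u ≠ 0 ∧ ∀ w ∈ W, act w u = u := by
  haveI : Fact p.Prime := ⟨hp⟩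
  letI : MulAction W (Fin 4 → F) :=
    { smul := fun w x => act (w : Sp4 F) x
      one_smul := fun x => act_one x
      mul_smul := fun g h x => act_mul _ _ x }
  have hd : p ∣ Nat.card (Fin 4 → F) :=
    dvd_card (F := F) p hp (x := (1 : Fin 4 → F)) one_ne_zero
  obtain ⟨b, hb, h0⟩ := hW.exists_fixed_point_of_prime_dvd_card_of_fixed_point (Fin 4 → F) hd
    (a := 0) (by
      intro w
      show act (w : Sp4 F) 0 = 0
      exact Matrix.mulVec_zero _)
  exact ⟨b, fun h => h0 h.symm, fun w hw => hb ⟨w, hw⟩⟩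

/-- `x ∧ u` -/
def wdg {F : Type} [Field F] (u : Fin 4 → F) : (Fin 4 → F) →ₗ[F] Matrix (Fin 4) (Fin 4) F where
  toFun x := fun i j => x i * u j - u i * x j
  map_add' x y := by
    ext i j
    simp only [Pi.add_apply, Matrix.add_apply]
    ring
  map_smul' a x := by
    ext i j
    simp only [Pi.smul_apply, Matrix.smul_apply, smul_eq_mul, RingHom.id_apply]
    ring

theorem wdg_apply {F : Type} [Field F] (u x : Fin 4 → F) (i j : Fin 4) :
    wdg u x i j = x i * u j - u i * x j := rfl

theorem wdg_zero {F : Type} [Field F] {u x : Fin 4 → F} (hu : u ≠ 0) (h : wdg u x = 0) :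
    ∃ a : F, x = a • u := by
  obtain ⟨j, hj⟩ := Function.ne_iff.1 hu
  refine ⟨x j / u j, ?_⟩
  ext i
  have h1 := congrFun (congrFun h i) j
  rw [wdg_apply] at h1
  simp only [Matrix.zero_apply] at h1
  simp only [Pi.zero_apply] at hj
  rw [Pi.smul_apply, smul_eq_mul]
  field_simp
  linear_combination h1

theorem wdg_act {F : Type} [Field F] (g : Sp4 F) (u x : Fin 4 → F) :
    g.1.1 * wdg u x * g.1.1ᵀ = wdg (act g u) (act g x) := by
  ext i j
  rw [wdg_apply]
  simp only [Matrix.mul_apply, act, Matrix.mulVec, dotProduct, Matrix.transpose_apply, wdg_apply,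
    Fin.sum_univ_four]
  ring

theorem exists_v {F : Type} [Field F] [Finite F] (p : ℕ) [CharP F p] (hp : p.Prime)
    (W : Subgroup (Sp4 F)) (hW : IsPGroup p W) (u : Fin 4 → F) (hu : u ≠ 0)
    (hWu : ∀ w ∈ W, act w u = u) :
    ∃ v : Fin 4 → F, frm u v = 0 ∧ (∀ a : F, v ≠ a • u) ∧
      ∀ w ∈ W, ∃ c : F, act w v = v + c • u := by
  haveI : Fact p.Prime := ⟨hp⟩
  set S : Submodule F (Fin 4 → F) := (BF F).orthogonal (Submodule.span F {u}) with hS
  have hSm : ∀ x, x ∈ S ↔ frm u x = 0 := by
    intro x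
    rw [hS, mem_orth]
    constructor
    · intro h
      exact h u (Submodule.mem_span_singleton_self u)
    · intro h y hy
      obtain ⟨a, rfl⟩ := Submodule.mem_span_singleton.1 hy
      rw [frm_eq] at h ⊢
      simp only [Pi.smul_apply, smul_eq_mul]
      linear_combination a * h
  set Ω : Submodule F (Matrix (Fin 4) (Fin 4) F) := S.map (wdg u) with hΩ
  have hstab : ∀ w ∈ W, ∀ X ∈ Ω, w.1.1 * X * w.1.1ᵀ ∈ Ω := by
    intro w hw X hX
    obtain ⟨x, hx, rfl⟩ := Submodule.mem_map.1 hX
    rw [wdg_act, hWu w hw]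
    refine Submodule.mem_map_of_mem ?_
    rw [hSm] at hx ⊢
    rw [← hx]
    conv_lhs => rw [← hWu w hw]
    exact frm_act w u x
  letI : MulAction W Ω :=
    { smul := fun w X => ⟨(w : Sp4 F).1.1 * X.1 * (w : Sp4 F).1.1ᵀ, hstab w.1 w.2 X.1 X.2⟩
      one_smul := by
        intro X
        apply Subtype.ext
        show (1 : Matrix (Fin 4) (Fin 4) F) * X.1 * (1 : Matrix (Fin 4) (Fin 4) F)ᵀ = X.1
        rw [Matrix.transpose_one, Matrix.one_mul, Matrix.mul_one]
      mul_smul := by
        intro g h X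
        apply Subtype.ext
        show (g.1.1.1 * h.1.1.1) * X.1 * (g.1.1.1 * h.1.1.1)ᵀ =
          g.1.1.1 * (h.1.1.1 * X.1 * h.1.1.1ᵀ) * g.1.1.1ᵀ
        rw [Matrix.transpose_mul]
        simp only [Matrix.mul_assoc] }
  have hne : ∃ x ∈ S, wdg u x ≠ 0 := by
    by_contra hcon
    push Not at hcon
    have hle : S ≤ Submodule.span F {u} := by
      intro x hx
      obtain ⟨a, ha⟩ := wdg_zero hu (hcon x hx)
      rw [ha]
      exact Submodule.smul_mem _ _ (Submodule.mem_span_singleton_self u)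
    have h1 := Submodule.finrank_mono hle
    rw [hS, fin_orth, finrank_span_singleton hu] at h1
    omega
  obtain ⟨x0, hx0, hx0n⟩ := hne
  have hd : p ∣ Nat.card Ω := by
    refine dvd_card (F := F) p hp (x := (⟨wdg u x0, Submodule.mem_map_of_mem hx0⟩ : Ω)) ?_
    intro h
    exact hx0n (congrArg Subtype.val h)
  obtain ⟨b, hb, h0⟩ := hW.exists_fixed_point_of_prime_dvd_card_of_fixed_point Ω hd
    (a := 0) (by
      intro w
      apply Subtype.ext
      show w.1.1.1 * (0 : Matrix (Fin 4) (Fin 4) F) * w.1.1.1ᵀ = 0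
      rw [Matrix.mul_zero, Matrix.zero_mul])
  obtain ⟨v, hv, hvb⟩ := Submodule.mem_map.1 b.2
  have hbn : wdg u v ≠ 0 := by
    intro h
    apply h0
    apply Subtype.ext
    rw [← hvb, h]
    rfl
  refine ⟨v, (hSm v).1 hv, ?_, ?_⟩
  · intro a ha
    apply hbn
    ext i j
    rw [wdg_apply, ha]
    simp only [Pi.smul_apply, smul_eq_mul, Matrix.zero_apply]
    ring
  · intro w hw
    have h1 : w.1.1 * b.1 * w.1.1ᵀ = b.1 := congrArg Subtype.val (hb ⟨w, hw⟩)
    rw [← hvb, wdg_act, hWu w hw] at h1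
    have h2 : wdg u (act w v - v) = 0 := by rw [map_sub, h1, sub_self]
    obtain ⟨c, hc⟩ := wdg_zero hu h2
    exact ⟨c, by rw [← hc]; abel⟩

/-- an isotropic plane is its own orthogonal -/
theorem iso {F : Type} [Field F] {u v : Fin 4 → F} (hu : u ≠ 0) (huv : frm u v = 0)
    (hv : ∀ a : F, v ≠ a • u) {y : Fin 4 → F} (h1 : frm u y = 0) (h2 : frm v y = 0) :
    ∃ a b : F, y = a • u + b • v := by
  have hli : LinearIndependent F ![u, v] := by
    rw [LinearIndependent.pair_iff' hu]
    intro a h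
    exact hv a h.symm
  set S : Submodule F (Fin 4 → F) := Submodule.span F (Set.range ![u, v]) with hS
  have hmem : ∀ x, x ∈ S ↔ ∃ a b : F, a • u + b • v = x := by
    intro x
    rw [hS, Matrix.range_cons, Matrix.range_cons, Matrix.range_empty, Set.union_empty,
      Set.singleton_union, Submodule.mem_span_pair]
  have hfr : Module.finrank F S = 2 := by
    rw [hS, finrank_span_eq_card hli]
    rfl
  have hle : S ≤ (BF F).orthogonal S := by
    intro x hx
    rw [mem_orth]
    intro z hz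
    obtain ⟨a, b, rfl⟩ := (hmem x).1 hx
    obtain ⟨c, d, rfl⟩ := (hmem z).1 hz
    rw [frm_eq] at huv ⊢
    simp only [Pi.add_apply, Pi.smul_apply, smul_eq_mul]
    linear_combination (c * b - d * a) * huv
  have heq : S = (BF F).orthogonal S := by
    apply Submodule.eq_of_le_of_finrank_eq hle
    rw [fin_orth, hfr]
  have hy : y ∈ S := by
    rw [heq, mem_orth]
    intro z hz
    obtain ⟨c, d, rfl⟩ := (hmem z).1 hz
    rw [frm_eq] at h1 h2 ⊢
    simp only [Pi.add_apply, Pi.smul_apply, smul_eq_mul]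
    linear_combination c * h1 + d * h2
  obtain ⟨a, b, h⟩ := (hmem y).1 hy
  exact ⟨a, b, h.symm⟩

end SU1T

open SU1T

theorem su1_thm : S_SU1 := by
  intro p f q F _ W z hp hp2 hf hq hF hW hzW hz1 hzp hzc
  haveI : Fact p.Prime := ⟨hp⟩
  haveI : Finite F := Nat.finite_of_card_ne_zero (by rw [hF, hq]; exact (pow_pos hp.pos f).ne')
  haveI : CharP F p := by
    haveI := Fintype.ofFinite F
    exact charP_of_card_eq_prime_pow (f := f) (by rw [← Nat.card_eq_fintype_card, hF, hq])
  obtain ⟨n, hn⟩ := hW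
  have hPW : IsPGroup p W := IsPGroup.of_card hn
  obtain ⟨u, hu, hWu⟩ := exists_u p hp W hPW
  obtain ⟨v, huv, hv, hWv⟩ := exists_v p hp W hPW u hu hWu
  choose! c hc using hWv
  have cuniq : ∀ a b : F, a • u = b • u → a = b := fun a b h => smul_left_injective F hu h
  have hcm : ∀ g ∈ W, ∀ h ∈ W, c (g * h) = c g + c h := by
    intro g hg h hh
    apply cuniq
    have h1 := hc (g * h) (W.mul_mem hg hh)
    rw [act_mul, hc h hh, act_add, act_smul, hc g hg, hWu g hg, add_assoc] at h1
    rw [add_smul]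
    exact (add_left_cancel h1).symm
  let χ : W →* Multiplicative F := MonoidHom.mk' (fun w => Multiplicative.ofAdd (c w.1)) (by
    intro a b
    rw [← ofAdd_add]
    exact congrArg _ (hcm a.1 a.2 b.1 b.2))
  have hker : ∀ w : W, w ∈ χ.ker ↔ c w.1 = 0 := by
    intro w
    rw [MonoidHom.mem_ker]
    show Multiplicative.ofAdd (c w.1) = 1 ↔ _
    exact ofAdd_eq_one
  have hWinv : ∀ w ∈ W, w⁻¹ ∈ W := fun w hw => W.inv_mem hw
  have hcinv : ∀ w ∈ W, c w⁻¹ = -c w := by
    intro w hw
    have h1 := hcm w hw w⁻¹ (hWinv w hw)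
    rw [mul_inv_cancel] at h1
    have h2 : c 1 = 0 := by
      have h3 := hcm 1 W.one_mem 1 W.one_mem
      rw [mul_one] at h3
      exact left_eq_add.1 h3
    rw [h2] at h1
    exact (neg_eq_of_add_eq_zero_right h1.symm).symm
  by_cases hz : c z = 0
  · have hidx : ∃ d ≤ f, χ.ker.index = p ^ d := by
      have h1 : χ.ker.index ∣ p ^ f := by
        rw [Subgroup.index_ker]
        have h2 : Nat.card (Multiplicative F) = p ^ f := by
          rw [← hq, ← hF]
          rfl
        rw [← h2]
        exact Subgroup.card_subgroup_dvd_card _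
      exact (Nat.dvd_prime_pow hp).1 h1
    obtain ⟨d, hd, hdi⟩ := hidx
    refine ⟨χ.ker.map W.subtype, d, ?_, ?_, ?_, hd, ?_⟩
    · intro w hw
      obtain ⟨w', _, rfl⟩ := Subgroup.mem_map.1 hw
      exact w'.2
    · exact Subgroup.mem_map.2 ⟨⟨z, hzW⟩, (hker _).2 hz, rfl⟩
    · rw [Subgroup.card_map_of_injective W.subtype_injective, ← hdi, mul_comm]
      exact (χ.ker.card_mul_index).symm
    · have hK : ∀ w ∈ χ.ker.map W.subtype, w ∈ W ∧ act w u = u ∧ act w v = v := by
        intro w hw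
        obtain ⟨w', hw', rfl⟩ := Subgroup.mem_map.1 hw
        have h1 := hc w'.1 w'.2
        rw [(hker w').1 hw', zero_smul, add_zero] at h1
        exact ⟨w'.2, hWu _ w'.2, h1⟩
      have hV : ∀ w ∈ χ.ker.map W.subtype, ∀ x, ∃ a b : F, act w x = x + (a • u + b • v) := by
        intro w hw x
        obtain ⟨h0, h1, h2⟩ := hK w hw
        obtain ⟨a, b, hab⟩ := iso (y := act w x - x) hu huv hv
          (by
            have h3 := frm_act w u x
            rw [h1] at h3
            rw [frm_eq] at h3 ⊢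
            rw [frm_eq] at h3
            simp only [Pi.sub_apply]
            linear_combination h3)
          (by
            have h3 := frm_act w v x
            rw [h2] at h3
            rw [frm_eq] at h3 ⊢
            rw [frm_eq] at h3
            simp only [Pi.sub_apply]
            linear_combination h3)
        exact ⟨a, b, by rw [← hab]; abel⟩
      have hcomm : ∀ g ∈ χ.ker.map W.subtype, ∀ h ∈ χ.ker.map W.subtype, g * h = h * g := by
        intro g hg h hh
        apply act_inj
        intro x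
        obtain ⟨a, b, h1⟩ := hV g hg x
        obtain ⟨a', b', h2⟩ := hV h hh x
        rw [act_mul, act_mul, h1, h2]
        simp only [act_add, act_smul]
        rw [(hK g hg).2.1, (hK g hg).2.2, (hK h hh).2.1, (hK h hh).2.2, h1, h2]
        abel
      refine ⟨⊥, bot_le, ?_, ?_, Or.inl ?_⟩
      · intro h _ x hx
        rw [Subgroup.mem_bot] at hx ⊢
        rw [hx, mul_one, mul_inv_cancel]
      · rw [Subgroup.mem_bot]
        exact hz1
      · intro x hx h hh
        rw [Subgroup.mem_bot, hcomm h hh x hx, mul_inv_cancel_right, mul_inv_cancel]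
  · refine ⟨W, 0, le_rfl, hzW, ?_, Nat.zero_le _, ?_⟩
    · rw [pow_zero, one_mul]
    · refine ⟨χ.ker.map W.subtype, ?_, ?_, ?_, Or.inl ?_⟩
      · intro w hw
        obtain ⟨w', _, rfl⟩ := Subgroup.mem_map.1 hw
        exact w'.2
      · intro h hh x hx
        have hxW : x ∈ W := by
          obtain ⟨x', _, rfl⟩ := Subgroup.mem_map.1 hx
          exact x'.2
        have hx0 : c x = 0 := by
          obtain ⟨x', hx', rfl⟩ := Subgroup.mem_map.1 hx
          exact (hker x').1 hx'
        have hm : h * x * h⁻¹ ∈ W := W.mul_mem (W.mul_mem hh hxW) (hWinv h hh)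
        refine Subgroup.mem_map.2 ⟨⟨h * x * h⁻¹, hm⟩, (hker _).2 ?_, rfl⟩
        show c (h * x * h⁻¹) = 0
        rw [hcm _ (W.mul_mem hh hxW) _ (hWinv h hh), hcm h hh x hxW, hcinv h hh, hx0]
        ring
      · intro h
        obtain ⟨w', hw', hw''⟩ := Subgroup.mem_map.1 h
        apply hz
        rw [← hw'']
        exact (hker w').1 hw'
      · intro x hx h hh
        have hm : h * x * h⁻¹ * x⁻¹ ∈ W :=
          W.mul_mem (W.mul_mem (W.mul_mem hh hx) (hWinv h hh)) (hWinv x hx)
        refine Subgroup.mem_map.2 ⟨⟨h * x * h⁻¹ * x⁻¹, hm⟩, (hker _).2 ?_, rfl⟩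
        show c (h * x * h⁻¹ * x⁻¹) = 0
        rw [hcm _ (W.mul_mem (W.mul_mem hh hx) (hWinv h hh)) _ (hWinv x hx),
          hcm _ (W.mul_mem hh hx) _ (hWinv h hh), hcm h hh x hx, hcinv h hh, hcinv x hx]
        ring

end Pool.CND
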